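import Mathlib

open Set Module

namespace Pool.Agent.Results.MP_e13ffb_co.ParallelogramFails

/-- The real vector with the same coordinates as the integer vector `z`. -/
def toReal {d : ℕ} (z : Fin d → ℤ) : Fin d → ℝ := fun i => (z i : ℝ)

/-- `S ⊆ ℤ^d` is integrally convex: every real point `x` of the convex hull of `S` is in the
convex hull of `S ∩ N(x)`, where `N(x) = {y ∈ ℤ^d : |x i - y i| < 1 for all i}`. -/
def IntegrallyConvex {d : ℕ} (S : Set (Fin d → ℤ)) : Prop :=
  ∀ x ∈ convexHull ℝ (toReal '' S),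
    x ∈ convexHull ℝ (toReal '' {y | y ∈ S ∧ ∀ i, |x i - (y i : ℝ)| < 1})

/-- The `k`-parallelogram condition for `A, B`: for all `1 ≤ k' ≤ k` and all
`a_1, …, a_{k'} ∈ A`, `b_1, …, b_{k'} ∈ B` (repetitions allowed) one has
`∑ a_i ≠ ∑ b_i`. -/
def ParallelogramCondition {d : ℕ} (k : ℕ) (A B : Set (Fin d → ℤ)) : Prop :=
  ∀ k' : ℕ, 1 ≤ k' → k' ≤ k → ∀ a b : Fin k' → (Fin d → ℤ),
    (∀ i, a i ∈ A) → (∀ i, b i ∈ B) → ∑ i, a i ≠ ∑ i, b i

/-- `P` separates `A` and `B` in `L` (with respect to `S`): the two connected components of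
`L \ P` can be named `Rp`, `Rn` with `Rp ∩ S ⊆ A` and `Rn ∩ S ⊆ B`.  The two
components are given as the components of points `x`, `y` of `L \ P`. -/
def SeparatesIn {d : ℕ} (S A B : Set (Fin d → ℤ)) (P L : AffineSubspace ℝ (Fin d → ℝ)) : Prop :=
  ∃ x ∈ (L : Set (Fin d → ℝ)) \ P, ∃ y ∈ (L : Set (Fin d → ℝ)) \ P,
    connectedComponentIn ((L : Set (Fin d → ℝ)) \ P) x ≠
      connectedComponentIn ((L : Set (Fin d → ℝ)) \ P) y ∧
    (∀ z ∈ S, toReal z ∈ connectedComponentIn ((L : Set (Fin d → ℝ)) \ P) x → z ∈ A) ∧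
    (∀ z ∈ S, toReal z ∈ connectedComponentIn ((L : Set (Fin d → ℝ)) \ P) y → z ∈ B)

/-- Condition H: there are `0 ≤ k ≤ d` and affine subspaces `H_k ⊂ H_{k+1} ⊂ … ⊂ H_d = ℝ^d`
with `dim H_i = i` such that `H_k ∩ S ⊆ A` or `H_k ∩ S ⊆ B`, and for each
`k + 1 ≤ i ≤ d` the subspace `H_{i-1}` separates `A` and `B` in `H_i`. -/
def ConditionH {d : ℕ} (S A B : Set (Fin d → ℤ)) : Prop :=
  ∃ k : ℕ, k ≤ d ∧ ∃ H : ℕ → AffineSubspace ℝ (Fin d → ℝ),
    H d = ⊤ ∧
    (∀ i, k ≤ i → i ≤ d → (H i : Set (Fin d → ℝ)).Nonempty ∧ finrank ℝ (H i).direction = i) ∧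
    (∀ i, k ≤ i → i < d → H i ≤ H (i + 1)) ∧
    ((∀ z ∈ S, toReal z ∈ H k → z ∈ A) ∨ (∀ z ∈ S, toReal z ∈ H k → z ∈ B)) ∧
    (∀ i, k ≤ i → i < d → SeparatesIn S A B (H i) (H (i + 1)))

/-! ### Auxiliary lemmas -/

/-- Every set of `0/1` vectors is integrally convex. -/
lemma integrallyConvex_of_zero_one {d : ℕ} (S : Set (Fin d → ℤ))
    (hS : ∀ y ∈ S, ∀ i, y i = 0 ∨ y i = 1) : IntegrallyConvex S := by
  intro x hx
  rw [mem_convexHull_iff_exists_fintype] at hx
  obtain ⟨ι, hι, w, z, hw0, hw1, hz, hx⟩ := hx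
  classical
  have key : ∑ i ∈ Finset.univ.filter (fun i => w i ≠ 0), w i • z i = x := by
    rw [← hx]
    apply Finset.sum_subset (Finset.filter_subset _ _)
    intro i _ hi
    have : w i = 0 := by
      by_contra h
      exact hi (by simp [h])
    simp [this]
  rw [← key]
  apply (convex_convexHull ℝ _).sum_mem
  · intro i _; exact hw0 i
  · rw [← hw1]
    apply Finset.sum_subset (Finset.filter_subset _ _)
    intro i _ hi
    by_contra h
    exact hi (by simp [h])
  · intro i hi
    have hwi : w i ≠ 0 := by simpa using hi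
    have hwi' : 0 < w i := lt_of_le_of_ne (hw0 i) (Ne.symm hwi)
    rw [key]
    apply subset_convexHull
    obtain ⟨y, hyS, hy⟩ := hz i
    refine ⟨y, ⟨hyS, ?_⟩, hy⟩
    intro j
    have hz01 : ∀ l, 0 ≤ z l j ∧ z l j ≤ 1 := by
      intro l
      obtain ⟨y', hyS', hy'⟩ := hz l
      rw [← hy']
      rcases hS y' hyS' j with h | h <;> simp [toReal, h]
    have hxj : x j = ∑ l, w l * z l j := by
      rw [← hx]; simp [Finset.sum_apply]
    have hlow : w i * z i j ≤ x j := by
      rw [hxj]
      exact Finset.single_le_sum (f := fun l => w l * z l j)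
        (fun l _ => mul_nonneg (hw0 l) (hz01 l).1) (Finset.mem_univ i)
    have hup : w i * (1 - z i j) ≤ 1 - x j := by
      have : 1 - x j = ∑ l, w l * (1 - z l j) := by
        have h2 : ∑ l, w l * (1 - z l j) = ∑ l, w l - ∑ l, w l * z l j := by
          rw [← Finset.sum_sub_distrib]
          apply Finset.sum_congr rfl
          intro l _; ring
        rw [h2, hw1, hxj]
      rw [this]
      exact Finset.single_le_sum (f := fun l => w l * (1 - z l j))
        (fun l _ => mul_nonneg (hw0 l) (by linarith [(hz01 l).2])) (Finset.mem_univ i)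
    have h0 : 0 ≤ x j := le_trans (mul_nonneg (hw0 i) (hz01 i).1) hlow
    have h1 : 0 ≤ 1 - x j := le_trans (mul_nonneg (hw0 i) (by linarith [(hz01 i).2])) hup
    rcases hS y hyS j with h | h
    · have hzi : z i j = 0 := by rw [← hy]; simp [toReal, h]
      rw [hzi] at hup
      rw [h, abs_lt]
      constructor
      · push_cast; linarith
      · push_cast; linarith
    · have hzi : z i j = 1 := by rw [← hy]; simp [toReal, h]
      rw [hzi] at hlow
      rw [h, abs_lt]
      constructor
      · push_cast; linarith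
      · push_cast; linarith

lemma exists_functional {d : ℕ} (P L : AffineSubspace ℝ (Fin d → ℝ)) (hle : P ≤ L)
    (hP : (P : Set (Fin d → ℝ)).Nonempty)
    (hdim : finrank ℝ L.direction = finrank ℝ P.direction + 1) :
    ∃ f : (Fin d → ℝ) →ₗ[ℝ] ℝ, ∃ c : ℝ, ∀ z ∈ L, (z ∈ P ↔ f z = c) := by
  obtain ⟨p, hp⟩ := hP
  have hdir : P.direction ≤ L.direction := AffineSubspace.direction_le hle
  have hlt : P.direction < L.direction := by
    refine lt_of_le_of_ne hdir ?_
    intro h
    rw [h] at hdim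
    omega
  obtain ⟨v, hvL, hvP⟩ := SetLike.exists_of_lt hlt
  obtain ⟨f, hfv, hfP⟩ := Submodule.exists_dual_map_eq_bot_of_notMem hvP inferInstance
  have hfP' : ∀ u ∈ P.direction, f u = 0 := by
    intro u hu
    have : f u ∈ Submodule.map f P.direction := Submodule.mem_map_of_mem hu
    rw [hfP] at this
    simpa using this
  have hinter : L.direction ⊓ LinearMap.ker f = P.direction := by
    symm
    apply Submodule.eq_of_le_of_finrank_le
    · intro u hu
      exact ⟨hdir hu, hfP' u hu⟩
    · have hlt2 : L.direction ⊓ LinearMap.ker f < L.direction := by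
        refine lt_of_le_of_ne inf_le_left ?_
        intro h
        have : v ∈ L.direction ⊓ LinearMap.ker f := by rw [h]; exact hvL
        exact hfv this.2
      have := Submodule.finrank_lt_finrank_of_lt hlt2
      omega
  refine ⟨f, f p, ?_⟩
  intro z hz
  constructor
  · intro hzP
    have : z -ᵥ p ∈ P.direction := AffineSubspace.vsub_mem_direction hzP hp
    have h2 := hfP' _ this
    rw [vsub_eq_sub, map_sub] at h2
    linarith
  · intro hfz
    have h1 : z -ᵥ p ∈ L.direction := AffineSubspace.vsub_mem_direction hz (hle hp)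
    have h2 : z -ᵥ p ∈ L.direction ⊓ LinearMap.ker f := by
      refine ⟨h1, ?_⟩
      show z -ᵥ p ∈ LinearMap.ker f
      rw [LinearMap.mem_ker, vsub_eq_sub, map_sub, hfz, sub_self]
    rw [hinter] at h2
    have := AffineSubspace.vadd_mem_of_mem_direction h2 hp
    simpa using this

/-- The half space part of `L` is connected and avoids `P`. -/
lemma same_component {d : ℕ} (P L : AffineSubspace ℝ (Fin d → ℝ))
    (f : (Fin d → ℝ) →ₗ[ℝ] ℝ) (c : ℝ) (hf : ∀ z ∈ L, (z ∈ P ↔ f z = c))
    (x z : Fin d → ℝ) (hx : x ∈ L) (hz : z ∈ L) (hfx : c < f x) (hfz : c < f z) :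
    z ∈ connectedComponentIn ((L : Set (Fin d → ℝ)) \ P) x := by
  have hconv : Convex ℝ ((L : Set (Fin d → ℝ)) ∩ {w | c < f w}) :=
    (AffineSubspace.convex L).inter (convex_halfSpace_gt (LinearMap.isLinear f) c)
  have hsub : ((L : Set (Fin d → ℝ)) ∩ {w | c < f w}) ⊆ (L : Set (Fin d → ℝ)) \ P := by
    rintro w ⟨hwL, hw⟩
    refine ⟨hwL, ?_⟩
    intro hwP
    have := (hf w hwL).1 hwP
    have hw' : c < f w := hw
    linarith
  exact hconv.isPreconnected.subset_connectedComponentIn ⟨hx, hfx⟩ hsub ⟨hz, hfz⟩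

lemma separates_functional {d : ℕ} (S A B : Set (Fin d → ℤ))
    (P L : AffineSubspace ℝ (Fin d → ℝ)) (hle : P ≤ L)
    (hP : (P : Set (Fin d → ℝ)).Nonempty)
    (hdim : finrank ℝ L.direction = finrank ℝ P.direction + 1)
    (hsep : SeparatesIn S A B P L) :
    ∃ f : (Fin d → ℝ) →ₗ[ℝ] ℝ, ∃ c : ℝ, (∀ z ∈ L, (z ∈ P ↔ f z = c)) ∧
      (∀ z ∈ S, toReal z ∈ L → c < f (toReal z) → z ∈ A) ∧
      (∀ z ∈ S, toReal z ∈ L → f (toReal z) < c → z ∈ B) := by
  obtain ⟨f, c, hf⟩ := exists_functional P L hle hP hdim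
  obtain ⟨x, ⟨hxL, hxP⟩, y, ⟨hyL, hyP⟩, hne, hA, hB⟩ := hsep
  have hfneg : ∀ z ∈ L, (z ∈ P ↔ (-f) z = -c) := by
    intro z hz
    rw [hf z hz, LinearMap.neg_apply, neg_inj]
  have hfx : f x ≠ c := fun h => hxP ((hf x hxL).2 h)
  have hfy : f y ≠ c := fun h => hyP ((hf y hyL).2 h)
  rcases lt_or_gt_of_ne hfx with hx1 | hx1 <;> rcases lt_or_gt_of_ne hfy with hy1 | hy1
  · exfalso
    apply hne
    apply connectedComponentIn_eq
    exact same_component P L (-f) (-c) hfneg x y hxL hyL (by simpa using hx1) (by simpa using hy1)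
  · refine ⟨-f, -c, hfneg, ?_, ?_⟩
    · intro z hz hzL hfz
      exact hA z hz (same_component P L (-f) (-c) hfneg x _ hxL hzL (by simpa using hx1) hfz)
    · intro z hz hzL hfz
      exact hB z hz (same_component P L f c hf y _ hyL hzL hy1 (by simpa using hfz))
  · refine ⟨f, c, hf, ?_, ?_⟩
    · intro z hz hzL hfz
      exact hA z hz (same_component P L f c hf x _ hxL hzL hx1 hfz)
    · intro z hz hzL hfz
      exact hB z hz (same_component P L (-f) (-c) hfneg y _ hyL hzL (by simpa using hy1)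
        (by simpa using hfz))
  · exfalso
    apply hne
    apply connectedComponentIn_eq
    exact same_component P L f c hf x y hxL hyL hx1 hy1

/-! ### The example -/

/-- `u = (1, …, 1, 0, 0)`. -/
def uVec (n : ℕ) : Fin (n + 2) → ℤ := Fin.append (fun _ => 1) ![0, 0]
/-- `e = (0, …, 0, 1, 0)`. -/
def eVec (n : ℕ) : Fin (n + 2) → ℤ := Fin.append (fun _ => 0) ![1, 0]
/-- `e' = (0, …, 0, 0, 1)`. -/
def eVec' (n : ℕ) : Fin (n + 2) → ℤ := Fin.append (fun _ => 0) ![0, 1]
/-- `v_j = (1, …, 1, 0, 1, …, 1, 1, 1)` with the zero in place `j < n`. -/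
def vVec (n : ℕ) (j : Fin n) : Fin (n + 2) → ℤ :=
  Fin.append (fun i => if i = j then 0 else 1) ![1, 1]

def setA (n : ℕ) : Set (Fin (n + 2) → ℤ) := {uVec n, eVec n, eVec' n}
def setB (n : ℕ) : Set (Fin (n + 2) → ℤ) := insert 0 (Set.range (vVec n))

lemma toReal_relation (n : ℕ) :
    ((n : ℝ) - 1) • toReal (uVec n) + (n : ℝ) • toReal (eVec n) + (n : ℝ) • toReal (eVec' n)
      = ∑ j, toReal (vVec n j) := by
  funext i
  simp only [Pi.add_apply, Pi.smul_apply, Finset.sum_apply, smul_eq_mul, toReal]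
  refine Fin.addCases (fun i => ?_) (fun i => ?_) i
  · simp only [uVec, eVec, eVec', vVec, Fin.append_left]
    have h : ∀ j : Fin n, (((if i = j then 0 else 1 : ℤ)) : ℝ) = 1 - (if i = j then 1 else 0) := by
      intro j
      split_ifs <;> simp
    rw [Finset.sum_congr rfl (fun j _ => h j), Finset.sum_sub_distrib]
    simp
  · simp only [uVec, eVec, eVec', vVec, Fin.append_right]
    fin_cases i <;> simp

lemma disjointAB (n : ℕ) (hn : 2 ≤ n) : Disjoint (setA n) (setB n) := by
  rw [Set.disjoint_left]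
  intro z hzA hzB
  have hi0 : 0 < n := by omega
  have hB1 : z (Fin.natAdd n 0) = z (Fin.natAdd n 1) := by
    rcases hzB with (rfl | ⟨j, rfl⟩) <;> simp [vVec, Fin.append_right]
  have hB2 : z (Fin.natAdd n 0) = 0 → z (Fin.castAdd 2 ⟨0, hi0⟩) = 0 := by
    rcases hzB with (rfl | ⟨j, rfl⟩) <;> simp [vVec, Fin.append_right]
  rcases hzA with (rfl | rfl | rfl)
  · have h := hB2 (by simp [uVec, Fin.append_right])
    rw [uVec, Fin.append_left] at h
    exact one_ne_zero h
  · simp [eVec, Fin.append_right] at hB1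
  · simp [eVec', Fin.append_right] at hB1

lemma notH (n : ℕ) (hn : 2 ≤ n) : ¬ ConditionH (setA n ∪ setB n) (setA n) (setB n) := by
  rintro ⟨k, hk, H, hH1, hH2, hH3, hH4, hH5⟩
  -- every point of `S` lies in every `H i`
  have huA : uVec n ∈ setA n := by simp [setA]
  have heA : eVec n ∈ setA n := by simp [setA]
  have heA' : eVec' n ∈ setA n := by simp [setA]
  have h0B : (0 : Fin (n + 2) → ℤ) ∈ setB n := by simp [setB]
  have hvB : ∀ j, vVec n j ∈ setB n := fun j => by simp [setB]
  have hdisj : Disjoint (setA n) (setB n) := disjointAB n hn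
  have key : ∀ m, m ≤ n + 2 - k → ∀ z ∈ setA n ∪ setB n, toReal z ∈ H (n + 2 - m) := by
    intro m
    induction m with
    | zero =>
      intro _ z _
      rw [Nat.sub_zero, hH1]
      trivial
    | succ m ih =>
      intro hm z hz
      have ih' := ih (by omega)
      obtain ⟨i, hi⟩ : ∃ i, n + 2 - m = i + 1 := ⟨n + 2 - m - 1, by omega⟩
      have hi' : n + 2 - (m + 1) = i := by omega
      rw [hi'] 
      rw [hi] at ih'
      have hki : k ≤ i := by omega
      have hin : i < n + 2 := by omega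
      obtain ⟨f, c, hf, hfA, hfB⟩ := separates_functional _ _ _ (H i) (H (i + 1))
        (hH3 i hki hin) (hH2 i hki hin.le).1
        (by rw [(hH2 (i + 1) (by omega) (by omega)).2, (hH2 i hki hin.le).2]) (hH5 i hki hin)
      have hgeA : ∀ z ∈ setA n, c ≤ f (toReal z) := by
        intro z hz
        by_contra h
        push Not at h
        have hzS : z ∈ setA n ∪ setB n := Or.inl hz
        exact Set.disjoint_left.1 hdisj hz (hfB z hzS (ih' z hzS) h)
      have hleB : ∀ z ∈ setB n, f (toReal z) ≤ c := by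
        intro z hz
        by_contra h
        push Not at h
        have hzS : z ∈ setA n ∪ setB n := Or.inr hz
        exact Set.disjoint_left.1 hdisj (hfA z hzS (ih' z hzS) h) hz
      have hrel := congrArg f (toReal_relation n)
      rw [map_add, map_add, map_smul, map_smul, map_smul, map_sum] at hrel
      simp only [smul_eq_mul] at hrel
      have h1 := hgeA _ huA
      have h2 := hgeA _ heA
      have h3 := hgeA _ heA'
      have h4 := hleB _ h0B
      have h5 := fun j => hleB _ (hvB j)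
      have hzero : toReal (0 : Fin (n + 2) → ℤ) = 0 := by
        funext i; simp [toReal]
      rw [hzero, map_zero] at h4
      have hsum : ∑ j, f (toReal (vVec n j)) ≤ n * c := by
        calc ∑ j, f (toReal (vVec n j)) ≤ ∑ j : Fin n, c := Finset.sum_le_sum (fun j _ => h5 j)
          _ = n * c := by simp
      have hn' : (2 : ℝ) ≤ n := by exact_mod_cast hn
      -- all inequalities are equalities
      have hm1 : 0 ≤ ((n : ℝ) - 1) * (f (toReal (uVec n)) - c) :=
        mul_nonneg (by linarith) (by linarith)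
      have hm2 : 0 ≤ (n : ℝ) * (f (toReal (eVec n)) - c) :=
        mul_nonneg (by linarith) (by linarith)
      have hm3 : 0 ≤ (n : ℝ) * (f (toReal (eVec' n)) - c) :=
        mul_nonneg (by linarith) (by linarith)
      have hm4 : 0 ≤ (2 * (n : ℝ) - 1) * c := mul_nonneg (by linarith) h4
      have hm5 : 0 ≤ n * c - ∑ j, f (toReal (vVec n j)) := by linarith
      have htot : ((n : ℝ) - 1) * (f (toReal (uVec n)) - c)
          + (n : ℝ) * (f (toReal (eVec n)) - c) + (n : ℝ) * (f (toReal (eVec' n)) - c)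
          + (2 * (n : ℝ) - 1) * c + (n * c - ∑ j, f (toReal (vVec n j))) = 0 := by
        linarith
      have q1 : ((n : ℝ) - 1) * (f (toReal (uVec n)) - c) = 0 := by linarith
      have q2 : (n : ℝ) * (f (toReal (eVec n)) - c) = 0 := by linarith
      have q3 : (n : ℝ) * (f (toReal (eVec' n)) - c) = 0 := by linarith
      have q4 : (2 * (n : ℝ) - 1) * c = 0 := by linarith
      have q5 : ∑ j, f (toReal (vVec n j)) = ∑ j : Fin n, c := by
        simp only [Finset.sum_const, Finset.card_univ, Fintype.card_fin, nsmul_eq_mul]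
        linarith
      have r1 : f (toReal (uVec n)) = c := by
        rcases mul_eq_zero.1 q1 with h | h
        · linarith
        · linarith
      have r2 : f (toReal (eVec n)) = c := by
        rcases mul_eq_zero.1 q2 with h | h
        · linarith
        · linarith
      have r3 : f (toReal (eVec' n)) = c := by
        rcases mul_eq_zero.1 q3 with h | h
        · linarith
        · linarith
      have r4 : c = 0 := by
        rcases mul_eq_zero.1 q4 with h | h
        · linarith
        · linarith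
      have r5 : ∀ j, f (toReal (vVec n j)) = c := by
        intro j
        exact (Finset.sum_eq_sum_iff_of_le (fun j _ => h5 j)).1 q5 j (Finset.mem_univ j)
      apply (hf _ (ih' z hz)).2
      rcases hz with (rfl | rfl | rfl) | (rfl | ⟨j, rfl⟩)
      · exact r1
      · exact r2
      · exact r3
      · rw [hzero, map_zero, r4]
      · exact r5 j
  have hk' := key (n + 2 - k) le_rfl
  have hkk : n + 2 - (n + 2 - k) = k := by omega
  rw [hkk] at hk'
  rcases hH4 with h | h
  · exact Set.disjoint_left.1 hdisj (h 0 (Or.inr h0B) (hk' 0 (Or.inr h0B))) h0B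
  · exact Set.disjoint_left.1 hdisj huA (h _ (Or.inl huA) (hk' _ (Or.inl huA)))

lemma parallelogram (n : ℕ) (hn : 2 ≤ n) :
    ParallelogramCondition (n + 2) (setA n) (setB n) := by
  intro k hk1 hk2 a b ha hb heq
  have hi0 : 0 < n := by omega
  let i0 : Fin n := ⟨0, hi0⟩
  -- functionals
  have hA1 : ∀ z ∈ setA n, ∀ j : Fin n, z (Fin.castAdd 2 j) = z (Fin.castAdd 2 i0) := by
    rintro z (rfl | rfl | rfl) j <;> simp [uVec, eVec, eVec', Fin.append_left]
  have hA2 : ∀ z ∈ setA n,
      z (Fin.castAdd 2 i0) + z (Fin.natAdd n 0) + z (Fin.natAdd n 1) = 1 := by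
    rintro z (rfl | rfl | rfl) <;> simp [uVec, eVec, eVec', Fin.append_left, Fin.append_right]
  have hA3 : ∀ z ∈ setA n, 0 ≤ z (Fin.castAdd 2 i0) ∧ 0 ≤ z (Fin.natAdd n 0) := by
    rintro z (rfl | rfl | rfl) <;> simp [uVec, eVec, eVec', Fin.append_left, Fin.append_right]
  have hB1 : ∀ z ∈ setB n, z (Fin.natAdd n 0) = z (Fin.natAdd n 1) := by
    rintro z (rfl | ⟨j, rfl⟩) <;> simp [vVec, Fin.append_right]
  have hB2 : ∀ z ∈ setB n,
      ∑ j : Fin n, z (Fin.castAdd 2 j) = (n - 1) * z (Fin.natAdd n 0) := by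
    rintro z (rfl | ⟨j, rfl⟩)
    · simp
    · simp only [vVec, Fin.append_right, Fin.append_left]
      have h : ∀ i : Fin n, (if i = j then 0 else 1 : ℤ) = 1 - (if i = j then 1 else 0) := by
        intro i
        split_ifs <;> simp
      rw [Finset.sum_congr rfl (fun j _ => h j), Finset.sum_sub_distrib]
      simp
  set σ := ∑ i, a i with hσ
  have e1 : ∀ j : Fin n, σ (Fin.castAdd 2 j) = σ (Fin.castAdd 2 i0) := by
    intro j
    simp only [hσ, Finset.sum_apply]
    exact Finset.sum_congr rfl (fun i _ => hA1 _ (ha i) j)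
  have e2 : σ (Fin.castAdd 2 i0) + σ (Fin.natAdd n 0) + σ (Fin.natAdd n 1) = k := by
    simp only [hσ, Finset.sum_apply]
    rw [← Finset.sum_add_distrib, ← Finset.sum_add_distrib]
    rw [Finset.sum_congr rfl (fun i _ => hA2 _ (ha i))]
    simp
  have e3 : 0 ≤ σ (Fin.castAdd 2 i0) := by
    simp only [hσ, Finset.sum_apply]
    exact Finset.sum_nonneg (fun i _ => (hA3 _ (ha i)).1)
  have e3' : 0 ≤ σ (Fin.natAdd n 0) := by
    simp only [hσ, Finset.sum_apply]
    exact Finset.sum_nonneg (fun i _ => (hA3 _ (ha i)).2)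
  have e4 : σ (Fin.natAdd n 0) = σ (Fin.natAdd n 1) := by
    rw [heq]
    simp only [Finset.sum_apply]
    exact Finset.sum_congr rfl (fun i _ => hB1 _ (hb i))
  have e5 : ∑ j : Fin n, σ (Fin.castAdd 2 j) = (n - 1) * σ (Fin.natAdd n 0) := by
    rw [heq]
    simp only [Finset.sum_apply]
    rw [Finset.sum_comm, Finset.mul_sum]
    exact Finset.sum_congr rfl (fun i _ => hB2 _ (hb i))
  have e6 : (n : ℤ) * σ (Fin.castAdd 2 i0) = (n - 1) * σ (Fin.natAdd n 0) := by
    rw [← e5, Finset.sum_congr rfl (fun j _ => e1 j)]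
    simp
  generalize σ (Fin.castAdd 2 i0) = α at *
  generalize σ (Fin.natAdd n 0) = N at *
  generalize σ (Fin.natAdd n 1) = N' at *
  subst e4
  have hn' : (2 : ℤ) ≤ n := by exact_mod_cast hn
  have hk1' : (1 : ℤ) ≤ k := by exact_mod_cast hk1
  have hk2' : (k : ℤ) ≤ n + 2 := by exact_mod_cast hk2
  obtain ⟨t, ht⟩ : ∃ t, t = N - α := ⟨_, rfl⟩
  have hN : N = n * t := by rw [ht]; linarith
  have hα : α = (n - 1) * t := by rw [ht]; linarith
  have hkt : (k : ℤ) = (3 * n - 1) * t := by rw [← e2, hα, hN]; ring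
  have ht1 : 1 ≤ t := by
    by_contra h
    push Not at h
    have : t ≤ 0 := by omega
    nlinarith
  nlinarith

/-- **Main result.** For every dimension `d ≥ 4` there is a finite integrally convex set
`S ⊆ ℤ^d` and a partition `S = A ∪ B` into nonempty disjoint sets satisfying the
`d`-parallelogram condition but not Condition H. -/
theorem result (d : ℕ) (hd : 4 ≤ d) :
    ∃ S A B : Set (Fin d → ℤ), S.Finite ∧ IntegrallyConvex S ∧ A.Nonempty ∧ B.Nonempty ∧
      Disjoint A B ∧ S = A ∪ B ∧ ParallelogramCondition d A B ∧ ¬ ConditionH S A B := by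
  obtain ⟨n, rfl⟩ : ∃ n, d = n + 2 := ⟨d - 2, by omega⟩
  have hn : 2 ≤ n := by omega
  refine ⟨setA n ∪ setB n, setA n, setB n, ?_, ?_, ⟨uVec n, by simp [setA]⟩,
    ⟨0, by simp [setB]⟩, disjointAB n hn, rfl, parallelogram n hn, notH n hn⟩
  · refine Set.Finite.union ?_ ?_
    · simp [setA]
    · exact (Set.finite_range _).insert 0
  · apply integrallyConvex_of_zero_one
    rintro y ((rfl | rfl | rfl) | (rfl | ⟨j, rfl⟩)) i
    · refine Fin.addCases (fun i => ?_) (fun i => ?_) i
      · simp [uVec]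
      · fin_cases i <;> simp [uVec, Fin.append_right]
    · refine Fin.addCases (fun i => ?_) (fun i => ?_) i
      · simp [eVec]
      · fin_cases i <;> simp [eVec, Fin.append_right]
    · refine Fin.addCases (fun i => ?_) (fun i => ?_) i
      · simp [eVec']
      · fin_cases i <;> simp [eVec', Fin.append_right]
    · simp
    · refine Fin.addCases (fun i => ?_) (fun i => ?_) i
      · simp only [vVec, Fin.append_left]
        split_ifs <;> simp
      · fin_cases i <;> simp [vVec, Fin.append_right]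

end Pool.Agent.Results.MP_e13ffb_co.ParallelogramFails
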